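import Pool.Agent.Q37.PC.Perf
import Pool.Agent.Q37.PC.Reg

/-!
# MP_c091ab_al, Q1: a vanishing Bass number `μ_i(R^∞)` with `i > dim R` forces regularity

`R` is a Noetherian local ring of prime characteristic `p` and Krull dimension `d`, and
`R^∞ = PerfectClosure R p = colim (R → R → ⋯)` (transition maps: Frobenius), an `R`-module through
the map `PerfectClosure.of` from the first copy of `R`.  We prove: if
`Ext^i_R(R/𝔪, R^∞) = 0` for some `i > d`, then `R` is a regular local ring.

The proof.
* Rigidity (`Rigid.lean`): for every `R`-module `M`, `Ext^i(k, M) = 0` for one `i ≥ d`, `i ≥ 1`,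
  implies `Ext^j(k, M) = 0` for all `j ≥ i`.
* If `B` is a perfect `R`-algebra and `b ∈ B`, then `J = √(bB)` is the increasing union of the
  ideals `b^{1/p^e}B`, and each inclusion `b^{1/p^e}B ⊆ b^{1/p^{e+1}}B` factors through `B`.
  Hence `Ext^j_R(L, B) = 0` implies `Ext^j_R(L, J) = 0` for `L` finitely generated, `j ≥ 1`, and
  the vanishing of `Ext^j_R(k, B)` for all `j ≥ i` passes to the perfect algebra `B/J`
  (`Perf.lean`).
* Killing generators of `𝔪` one after the other we reach a nonzero `R`-algebra `C` with `𝔪C = 0`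
  and `Ext^j(k, C) = 0` for `j ≥ i`; as `k` is a direct summand of `C`, `Ext^j(k, k) = 0`, and
  `R` is regular by the theorem of Auslander, Buchsbaum and Serre, which is also proved
  (`Abs.lean`, `Reg.lean`).
-/

namespace Pool.Agent.Results.MP_c091ab_al.PerfectClosureBass

open CategoryTheory CategoryTheory.Abelian IsLocalRing

open Pool.Agent.Q37.PC

universe u

theorem result (R : Type u) [CommRing R] [IsLocalRing R] [IsNoetherianRing R]
    (p : ℕ) [Fact p.Prime] [CharP R p] (i : ℕ) (hi : ringKrullDim R < (i : WithBot ℕ∞))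
    (h : letI : Algebra R (PerfectClosure R p) := (PerfectClosure.of R p).toAlgebra
      Subsingleton (Ext (ModuleCat.of R (ResidueField R))
        (ModuleCat.of R (PerfectClosure R p)) i)) :
    IsRegularLocalRing R := by
  have hp : p.Prime := Fact.out
  let : Algebra R (PerfectClosure R p) := (PerfectClosure.of R p).toAlgebra
  -- `i ≥ 1`
  obtain ⟨i, rfl⟩ : ∃ i', i = i' + 1 := by
    cases i with
    | zero =>
      exfalso
      have h0 : (0 : WithBot ℕ∞) ≤ ringKrullDim R := ringKrullDim_nonneg_of_nontrivial
      exact absurd (lt_of_le_of_lt h0 hi) (by simp)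
    | succ i => exact ⟨i, rfl⟩
  have hk : ∀ (j : ℕ) (M : Type u) [AddCommGroup M] [Module R M],
      EV R j (ResidueField R) M → EV R j (R ⧸ maximalIdeal R) M := fun j M _ _ hj => hj
  have h1 : EV R (i + 1) (R ⧸ maximalIdeal R) (PerfectClosure R p) := h
  have h2 : ∀ j ≥ i + 1, EV R j (R ⧸ maximalIdeal R) (PerfectClosure R p) :=
    fun j hj => rigid _ i hi.le h1 j hj
  -- characteristic of the residue field
  have hchar : CharP (ResidueField R) p := by
    rw [CharP.charP_iff_prime_eq_zero hp, ← map_natCast (residue R), CharP.cast_eq_zero, map_zero]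
  let τ : PerfectClosure R p →+* PerfectClosure (ResidueField R) p :=
    PerfectClosure.lift R p (PerfectClosure (ResidueField R) p)
      ((PerfectClosure.of (ResidueField R) p).comp (residue R))
  have hτ : ∀ x : R, τ (algebraMap R (PerfectClosure R p) x) =
      PerfectClosure.of (ResidueField R) p (residue R x) := by
    intro x
    have := congrArg (fun f => f x) ((PerfectClosure.lift R p
      (PerfectClosure (ResidueField R) p)).symm_apply_apply
      ((PerfectClosure.of (ResidueField R) p).comp (residue R)))
    exact this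
  have hPerf : Perf p (PerfectClosure R p) :=
    ⟨CharP.cast_eq_zero _ p, PerfectRing.bijective_frobenius⟩
  obtain ⟨S, hS⟩ := (maximalIdeal R).fg_of_isNoetherianRing
  have hSm : ∀ x ∈ S, x ∈ maximalIdeal R := fun x hx => by
    rw [← hS]; exact Ideal.subset_span hx
  obtain ⟨C, _, _, hC1, _, hC2, hC3⟩ := kill_list hp (R ⧸ maximalIdeal R) (i + 1) S.toList
    (PerfectClosure R p) hPerf (PerfectClosure (ResidueField R) p) τ
    (fun x hx => by
      rw [hτ, (residue_eq_zero_iff x).2 (hSm x (by simpa using hx)), map_zero]) h2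
  have hkill : ∀ a ∈ maximalIdeal R, algebraMap R C a = 0 := by
    intro a ha
    have h3 : maximalIdeal R ≤ RingHom.ker (algebraMap R C) := by
      rw [← hS, Ideal.span_le]
      intro x hx
      exact hC2 x (by simpa using hx)
    exact h3 ha
  -- `k` is a direct summand of `C`
  have h4 : EV R (i + 1) (R ⧸ maximalIdeal R) (R ⧸ maximalIdeal R) := by
    let : Field (R ⧸ maximalIdeal R) := Ideal.Quotient.field _
    let : Algebra (R ⧸ maximalIdeal R) C :=
      (Ideal.Quotient.lift (maximalIdeal R) (algebraMap R C) hkill).toAlgebra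
    have : IsScalarTower R (R ⧸ maximalIdeal R) C := IsScalarTower.of_algebraMap_eq fun x => rfl
    obtain ⟨g, hg⟩ := (Algebra.linearMap (R ⧸ maximalIdeal R) C).exists_leftInverse_of_injective
      (LinearMap.ker_eq_bot.2 (algebraMap (R ⧸ maximalIdeal R) C).injective)
    refine EV.retract_right ((Algebra.linearMap (R ⧸ maximalIdeal R) C).restrictScalars R)
      (g.restrictScalars R) ?_ (hC3 (i + 1) le_rfl)
    ext
    have := congrArg (fun f => f 1) hg
    simpa using this
  exact regular_of_ev (i + 1) R hi.le ⟨i, h4⟩

end Pool.Agent.Results.MP_c091ab_al.PerfectClosureBass
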